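import Pool.Agent.H21.BS.TB

/-!
# A Bessel inequality over many levels: short intervals inside a window
-/

set_option autoImplicit false

open Finset Pool.Agent.H6.N4D

namespace Pool.Agent.H73.BS

open Pool.Agent.H21.BS

theorem split_sum {β : Type*} [AddCommMonoid β] (h : ℕ → β) (M s y : ℕ) (hy : y ≤ s) :
    ∑ i ∈ range (M + s), h i =
      ∑ i ∈ range y, h i + ∑ x ∈ range M, h (y + x) + ∑ j ∈ range (s - y), h (y + M + j) := by
  have e : M + s = y + M + (s - y) := by omega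
  rw [e, sum_range_add, sum_range_add]

theorem incr (W : ℕ → ℂ) (x : ℕ) : ∀ y : ℕ, ‖W (x + y) - W x‖ ≤
    ∑ z ∈ range y, ‖W (x + z + 1) - W (x + z)‖
  | 0 => by simp
  | y + 1 => by
    rw [sum_range_succ]
    have h := incr W x y
    have e : W (x + (y + 1)) - W x = (W (x + y) - W x) + (W (x + y + 1) - W (x + y)) := by
      rw [← add_assoc]
      ring
    rw [e]
    exact (norm_add_le _ _).trans (add_le_add_left h _)

/-- one shift -/
theorem shift (W f : ℕ → ℂ) (M s y : ℕ) (hy : y ≤ s) (h1 : ∀ n, ‖W n‖ ≤ 1)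
    (hv : ∑ i ∈ range (M + s), ‖W (i + 1) - W i‖ ≤ 10) :
    ‖∑ i ∈ range (M + s), f i * starRingEnd ℂ (W i) -
      ∑ x ∈ range M, f (x + y) * starRingEnd ℂ (W x)‖ ^ 2 ≤
      21 * s * ∑ i ∈ range (M + s), ‖f i‖ ^ 2 := by
  set v : ℕ → ℂ := fun i => W i - (if y ≤ i ∧ i < M + y then W (i - y) else 0) with hvdef
  have v1 : ∀ i, i < y → v i = W i := by
    intro i hi
    simp only [hvdef]
    rw [if_neg (by omega), sub_zero]
  have v2 : ∀ x, x < M → v (y + x) = W (x + y) - W x := by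
    intro x hx
    simp only [hvdef]
    rw [if_pos (by omega), Nat.add_sub_cancel_left, add_comm y x]
  have v3 : ∀ j, v (y + M + j) = W (y + M + j) := by
    intro j
    simp only [hvdef]
    rw [if_neg (by omega), sub_zero]
  have e1 : ∑ i ∈ range (M + s), f i * starRingEnd ℂ (W i) -
      ∑ x ∈ range M, f (x + y) * starRingEnd ℂ (W x) =
      ∑ i ∈ range (M + s), f i * starRingEnd ℂ (v i) := by
    rw [split_sum _ M s y hy, split_sum (fun i => f i * starRingEnd ℂ (v i)) M s y hy]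
    have a1 : ∑ i ∈ range y, f i * starRingEnd ℂ (v i) =
        ∑ i ∈ range y, f i * starRingEnd ℂ (W i) :=
      sum_congr rfl fun i hi => by rw [v1 i (mem_range.1 hi)]
    have a2 : ∑ x ∈ range M, f (y + x) * starRingEnd ℂ (v (y + x)) =
        ∑ x ∈ range M, f (y + x) * starRingEnd ℂ (W (y + x)) -
          ∑ x ∈ range M, f (x + y) * starRingEnd ℂ (W x) := by
      rw [← sum_sub_distrib]
      refine sum_congr rfl fun x hx => ?_
      rw [v2 x (mem_range.1 hx), map_sub, add_comm x y]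
      ring
    have a3 : ∑ j ∈ range (s - y), f (y + M + j) * starRingEnd ℂ (v (y + M + j)) =
        ∑ j ∈ range (s - y), f (y + M + j) * starRingEnd ℂ (W (y + M + j)) :=
      sum_congr rfl fun j _ => by rw [v3 j]
    rw [a1, a2, a3]
    ring
  have b1 : ∑ i ∈ range (M + s), ‖v i‖ ^ 2 ≤ 21 * s := by
    rw [split_sum _ M s y hy]
    have a1 : ∑ i ∈ range y, ‖v i‖ ^ 2 ≤ y := by
      calc _ ≤ ∑ i ∈ range y, (1 : ℝ) := by
            refine sum_le_sum fun i hi => ?_
            rw [v1 i (mem_range.1 hi)]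
            exact pow_le_one₀ (norm_nonneg _) (h1 _)
        _ = y := by simp
    have a3 : ∑ j ∈ range (s - y), ‖v (y + M + j)‖ ^ 2 ≤ (s : ℝ) - y := by
      calc _ ≤ ∑ i ∈ range (s - y), (1 : ℝ) := by
            refine sum_le_sum fun j _ => ?_
            rw [v3 j]
            exact pow_le_one₀ (norm_nonneg _) (h1 _)
        _ = (s : ℝ) - y := by
            rw [sum_const, card_range, nsmul_eq_mul, mul_one, Nat.cast_sub hy]
    have a2 : ∑ x ∈ range M, ‖v (y + x)‖ ^ 2 ≤ 20 * y := by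
      calc _ ≤ ∑ x ∈ range M, 2 * ∑ z ∈ range y, ‖W (x + z + 1) - W (x + z)‖ := by
            refine sum_le_sum fun x hx => ?_
            rw [v2 x (mem_range.1 hx)]
            have h2 : ‖W (x + y) - W x‖ ≤ 2 :=
              (norm_sub_le _ _).trans (by linarith [h1 (x + y), h1 x])
            have h3 := incr W x y
            calc ‖W (x + y) - W x‖ ^ 2 = ‖W (x + y) - W x‖ * ‖W (x + y) - W x‖ := sq _
              _ ≤ 2 * _ := mul_le_mul h2 h3 (norm_nonneg _) (by norm_num)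
        _ = ∑ z ∈ range y, 2 * ∑ x ∈ range M, ‖W (x + z + 1) - W (x + z)‖ := by
            simp only [← mul_sum]
            rw [sum_comm]
        _ ≤ ∑ z ∈ range y, (20 : ℝ) := by
            refine sum_le_sum fun z hz => ?_
            have hz' := mem_range.1 hz
            have h4 : ∑ x ∈ range M, ‖W (x + z + 1) - W (x + z)‖ ≤
                ∑ i ∈ range (M + s), ‖W (i + 1) - W i‖ := by
              rw [split_sum (fun i => ‖W (i + 1) - W i‖) M s z (by omega)]
              have h5 : ∑ x ∈ range M, ‖W (x + z + 1) - W (x + z)‖ =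
                  ∑ x ∈ range M, ‖W (z + x + 1) - W (z + x)‖ :=
                sum_congr rfl fun x _ => by rw [add_comm x z]
              rw [h5]
              have h6 : 0 ≤ ∑ i ∈ range z, ‖W (i + 1) - W i‖ :=
                sum_nonneg fun _ _ => norm_nonneg _
              have h7 : 0 ≤ ∑ j ∈ range (s - z), ‖W (z + M + j + 1) - W (z + M + j)‖ :=
                sum_nonneg fun _ _ => norm_nonneg _
              linarith
            linarith
        _ = 20 * y := by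
            rw [sum_const, card_range, nsmul_eq_mul, mul_comm]
    have hy' : (y : ℝ) ≤ s := by exact_mod_cast hy
    linarith
  rw [e1]
  have hf0 : 0 ≤ ∑ i ∈ range (M + s), ‖f i‖ ^ 2 := sum_nonneg fun _ _ => by positivity
  calc _ ≤ (∑ i ∈ range (M + s), ‖f i‖ * ‖v i‖) ^ 2 := by
        refine pow_le_pow_left₀ (norm_nonneg _) ((norm_sum_le _ _).trans (le_of_eq ?_)) 2
        refine sum_congr rfl fun i _ => ?_
        rw [norm_mul, RCLike.norm_conj]
    _ ≤ (∑ i ∈ range (M + s), ‖f i‖ ^ 2) * ∑ i ∈ range (M + s), ‖v i‖ ^ 2 :=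
        sum_mul_sq_le_sq_mul_sq _ _ _
    _ ≤ (∑ i ∈ range (M + s), ‖f i‖ ^ 2) * (21 * s) := mul_le_mul_of_nonneg_left b1 hf0
    _ = _ := mul_comm _ _

theorem conj_ee (x : ℝ) : starRingEnd ℂ (ee x) = ee (-x) := by
  unfold ee
  rw [← Complex.exp_conj, map_mul, Complex.conj_ofReal, Complex.conj_I]
  congr 1
  push_cast
  ring

theorem pf_SB1 : T_SB1 := by
  intro a s θ F w hs hw
  obtain ⟨h1, hv⟩ := hw
  have hs0 : (0 : ℝ) < s := by exact_mod_cast hs
  set M : ℕ := s ^ 2 - s with hM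
  have hMs : M + s = s ^ 2 := by
    have : s ≤ s ^ 2 := by nlinarith
    omega
  set W : ℕ → ℂ := fun i => w (a + i) with hW
  set f : ℕ → ℂ := fun i => F (a + i) * ee (-(θ * ((a + i : ℕ) : ℝ))) with hf
  have hnf : ∀ i, ‖f i‖ = ‖F (a + i)‖ := fun i => by
    simp only [hf]
    rw [norm_mul, norm_ee, mul_one]
  set A : ℂ := ∑ i ∈ range (M + s), f i * starRingEnd ℂ (W i) with hA
  set B : ℕ → ℂ := fun y => ∑ x ∈ range M, f (x + y) * starRingEnd ℂ (W x) with hB
  set S : ℝ := ∑ i ∈ range (M + s), ‖f i‖ ^ 2 with hS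
  have hS0 : 0 ≤ S := sum_nonneg fun _ _ => by positivity
  have hsh : ∀ y ∈ range s, ‖A - B y‖ ≤ Real.sqrt (21 * s * S) := by
    intro y hy
    apply Real.le_sqrt_of_sq_le
    refine shift W f M s y (mem_range.1 hy).le (fun n => h1 _) ?_
    rw [hMs]
    exact hv
  have eX : av a (s ^ 2) (fun n => F n * starRingEnd ℂ (ee (θ * n) * w n)) =
      A / ((s : ℂ) ^ 2) := by
    unfold av
    rw [hA, hMs]
    push_cast
    congr 1
    refine sum_congr rfl fun i _ => ?_
    simp only [hf, hW]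
    rw [map_mul, conj_ee]
    push_cast
    ring
  set Y : ℂ := (∑ y ∈ range s, B y) / ((s : ℂ) ^ 2 * s) with hY
  have hsC : (s : ℂ) ≠ 0 := by
    exact_mod_cast hs0.ne'
  have hXY : ‖A / ((s : ℂ) ^ 2) - Y‖ ^ 2 ≤ 21 / s * (S / s ^ 2) := by
    have e1 : A / ((s : ℂ) ^ 2) - Y = (∑ y ∈ range s, (A - B y)) / ((s : ℂ) ^ 2 * s) := by
      rw [sum_sub_distrib, sum_const, card_range, nsmul_eq_mul, hY]
      field_simp
    have e2 : ‖∑ y ∈ range s, (A - B y)‖ ≤ s * Real.sqrt (21 * s * S) := by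
      refine (norm_sum_le _ _).trans ((sum_le_sum hsh).trans (le_of_eq ?_))
      rw [sum_const, card_range, nsmul_eq_mul]
    rw [e1, norm_div, norm_mul, norm_pow, Complex.norm_natCast, div_pow]
    rw [div_le_iff₀ (by positivity)]
    calc _ ≤ (s * Real.sqrt (21 * s * S)) ^ 2 := pow_le_pow_left₀ (norm_nonneg _) e2 2
      _ = (s : ℝ) ^ 2 * (21 * s * S) := by
          rw [mul_pow, Real.sq_sqrt (by positivity)]
      _ = _ := by
          field_simp
  have hYb : ‖Y‖ ^ 2 ≤ 1 / (s : ℝ) ^ 2 * ∑ x ∈ range M,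
      ‖(∑ y ∈ range s, F (a + x + y) * ee (-(θ * y))) / s‖ ^ 2 := by
    set G : ℕ → ℝ := fun x => ‖(∑ y ∈ range s, F (a + x + y) * ee (-(θ * y))) / s‖ with hG
    have e1 : Y = (∑ x ∈ range M, starRingEnd ℂ (W x) * (ee (-(θ * ((a + x : ℕ) : ℝ))) *
        ((∑ y ∈ range s, F (a + x + y) * ee (-(θ * y))) / s))) / (s : ℂ) ^ 2 := by
      rw [hY, hB]
      rw [sum_comm, ← div_div, div_right_comm]
      congr 1
      rw [sum_div]
      refine sum_congr rfl fun x _ => ?_
      rw [mul_div_assoc', mul_div_assoc', mul_sum, mul_sum]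
      congr 1
      refine sum_congr rfl fun y _ => ?_
      simp only [hf]
      have e3 : ee (-(θ * ((a + (x + y) : ℕ) : ℝ))) =
          ee (-(θ * ((a + x : ℕ) : ℝ))) * ee (-(θ * y)) := by
        rw [← ee_add]
        congr 1
        push_cast
        ring
      rw [e3, add_assoc a x y]
      ring
    have e2 : ‖Y‖ ≤ (∑ x ∈ range M, G x) / (s : ℝ) ^ 2 := by
      rw [e1, norm_div, norm_pow, Complex.norm_natCast]
      refine div_le_div_of_nonneg_right ?_ (by positivity)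
      refine (norm_sum_le _ _).trans (sum_le_sum fun x _ => ?_)
      rw [norm_mul, norm_mul, norm_ee, one_mul, RCLike.norm_conj]
      calc _ ≤ 1 * G x := mul_le_mul_of_nonneg_right (h1 _) (norm_nonneg _)
        _ = G x := one_mul _
    have hG0 : ∀ x, 0 ≤ G x := fun x => norm_nonneg _
    have e3 : (∑ x ∈ range M, G x) ^ 2 ≤ (s : ℝ) ^ 2 * ∑ x ∈ range M, G x ^ 2 := by
      have := sq_sum_le_card_mul_sum_sq (s := range M) (f := G)
      rw [card_range] at this
      refine this.trans (mul_le_mul_of_nonneg_right ?_ (sum_nonneg fun _ _ => by positivity))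
      have : M ≤ s ^ 2 := by omega
      exact_mod_cast this
    calc ‖Y‖ ^ 2 ≤ ((∑ x ∈ range M, G x) / (s : ℝ) ^ 2) ^ 2 :=
          pow_le_pow_left₀ (norm_nonneg _) e2 2
      _ = (∑ x ∈ range M, G x) ^ 2 / ((s : ℝ) ^ 2) ^ 2 := div_pow _ _ _
      _ ≤ ((s : ℝ) ^ 2 * ∑ x ∈ range M, G x ^ 2) / ((s : ℝ) ^ 2) ^ 2 :=
          div_le_div_of_nonneg_right e3 (by positivity)
      _ = 1 / (s : ℝ) ^ 2 * ∑ x ∈ range M, G x ^ 2 := by
          field_simp
      _ = _ := rfl
  rw [eX]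
  have hF : ∑ x ∈ range (s ^ 2), ‖F (a + x)‖ ^ 2 = S := by
    rw [hS, hMs]
    exact sum_congr rfl fun x _ => by rw [hnf]
  rw [hF]
  have hfin : ‖A / ((s : ℂ) ^ 2)‖ ^ 2 ≤ 2 * ‖Y‖ ^ 2 + 2 * ‖A / ((s : ℂ) ^ 2) - Y‖ ^ 2 := by
    have h5 : ‖A / ((s : ℂ) ^ 2)‖ ≤ ‖Y‖ + ‖A / ((s : ℂ) ^ 2) - Y‖ := by
      calc _ = ‖Y + (A / ((s : ℂ) ^ 2) - Y)‖ := by rw [add_sub_cancel]
        _ ≤ _ := norm_add_le _ _
    nlinarith [norm_nonneg (A / ((s : ℂ) ^ 2)), norm_nonneg Y,
      norm_nonneg (A / ((s : ℂ) ^ 2) - Y), sq_nonneg (‖Y‖ - ‖A / ((s : ℂ) ^ 2) - Y‖)]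
  have hq : 0 ≤ 1 / (s : ℝ) * (S / s ^ 2) := by positivity
  calc _ ≤ _ := hfin
    _ ≤ 2 * (1 / (s : ℝ) ^ 2 * ∑ x ∈ range M,
        ‖(∑ y ∈ range s, F (a + x + y) * ee (-(θ * y))) / s‖ ^ 2) +
        2 * (21 / s * (S / s ^ 2)) := by linarith
    _ = 2 / (s : ℝ) ^ 2 * ∑ x ∈ range M,
        ‖(∑ y ∈ range s, F (a + x + y) * ee (-(θ * y))) / s‖ ^ 2 +
        42 * (1 / (s : ℝ) * (S / s ^ 2)) := by ring
    _ ≤ 2 / (s : ℝ) ^ 2 * ∑ x ∈ range M,
        ‖(∑ y ∈ range s, F (a + x + y) * ee (-(θ * y))) / s‖ ^ 2 +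
        120 * (1 / (s : ℝ) * (S / s ^ 2)) := by linarith
    _ = _ := by ring

end Pool.Agent.H73.BS
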